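import Mathlib.Analysis.InnerProductSpace.l2Space
import Mathlib.Analysis.InnerProductSpace.Projection.Basic
import Mathlib.Analysis.SpecialFunctions.Complex.Circle
import Mathlib.Analysis.Fourier.AddCircle

/-!
# Riesz sequences: analysis maps and expansions
-/

set_option autoImplicit false

open Filter Topology

namespace Pool.Agent.Q179.BLT

variable {H : Type*} [NormedAddCommGroup H] [InnerProductSpace ℂ H]
variable {K : Type*}

/-- A Bessel bound for finite families. -/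
def BB (e : K → H) (B : ℝ) : Prop :=
  0 ≤ B ∧ ∀ (f : H) (s : Finset K), ∑ k ∈ s, ‖inner ℂ (e k) f‖ ^ 2 ≤ B * ‖f‖ ^ 2

lemma BB.of_upper {e : K → H} {B : ℝ} (hB0 : 0 ≤ B)
    (h : ∀ (s : Finset K) (c : K → ℂ), ‖∑ k ∈ s, c k • e k‖ ^ 2 ≤ B * ∑ k ∈ s, ‖c k‖ ^ 2) :
    BB e B := by
  refine ⟨hB0, ?_⟩
  intro f s
  set S : ℝ := ∑ k ∈ s, ‖inner ℂ (e k) f‖ ^ 2 with hS
  have hS0 : 0 ≤ S := Finset.sum_nonneg fun _ _ => sq_nonneg _
  have h1 : inner ℂ (∑ k ∈ s, inner ℂ (e k) f • e k) f = (S : ℂ) := by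
    rw [sum_inner]
    rw [hS]
    push_cast
    refine Finset.sum_congr rfl fun k _ => ?_
    rw [inner_smul_left]
    rw [← Complex.conj_mul']
  have h2 : S ≤ ‖∑ k ∈ s, inner ℂ (e k) f • e k‖ * ‖f‖ := by
    have := norm_inner_le_norm (𝕜 := ℂ) (∑ k ∈ s, inner ℂ (e k) f • e k) f
    rw [h1, Complex.norm_real, Real.norm_of_nonneg hS0] at this
    exact this
  have h3 := h s (fun k => inner ℂ (e k) f)
  simp only [← hS] at h3
  have h4 : S ^ 2 ≤ (B * S) * ‖f‖ ^ 2 := by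
    calc S ^ 2 ≤ (‖∑ k ∈ s, inner ℂ (e k) f • e k‖ * ‖f‖) ^ 2 :=
          pow_le_pow_left₀ hS0 h2 2
      _ = ‖∑ k ∈ s, inner ℂ (e k) f • e k‖ ^ 2 * ‖f‖ ^ 2 := by ring
      _ ≤ (B * S) * ‖f‖ ^ 2 := by gcongr
  rcases hS0.lt_or_eq with h5 | h5
  · have : S * S ≤ S * (B * ‖f‖ ^ 2) := by nlinarith
    exact le_of_mul_le_mul_left this h5
  · rw [← h5]; positivity

/-- The coefficient sequence. -/
noncomputable def coef (e : K → H) (B : ℝ) (h : BB e B) (f : H) : lp (fun _ : K => ℂ) 2 :=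
  ⟨fun k => inner ℂ (e k) f, memℓp_gen' (C := B * ‖f‖ ^ 2) (by
        intro s; simpa using h.2 f s)⟩

lemma coef_norm_le (e : K → H) (B : ℝ) (h : BB e B) (f : H) :
    ‖coef e B h f‖ ≤ √B * ‖f‖ := by
  have hB := h.1
  refine lp.norm_le_of_forall_sum_le (by norm_num) (by positivity) ?_
  intro s
  have h1 := h.2 f s
  simpa [coef, mul_pow, Real.sq_sqrt hB] using h1

/-- The analysis map of a Bessel family. -/
noncomputable def ana (e : K → H) (B : ℝ) (h : BB e B) : H →L[ℂ] lp (fun _ : K => ℂ) 2 :=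
  LinearMap.mkContinuous
    { toFun := coef e B h
      map_add' := fun f g => by
        ext k
        change inner ℂ (e k) (f + g) = inner ℂ (e k) f + inner ℂ (e k) g
        rw [inner_add_right]
      map_smul' := fun c f => by
        ext k
        change inner ℂ (e k) (c • f) = c * inner ℂ (e k) f
        rw [inner_smul_right] }
    (√B) (coef_norm_le e B h)

@[simp] lemma ana_apply (e : K → H) (B : ℝ) (h : BB e B) (f : H) (k : K) :
    ana e B h f k = inner ℂ (e k) f := rfl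

lemma ana_norm_le (e : K → H) (B : ℝ) (h : BB e B) (f : H) : ‖ana e B h f‖ ≤ √B * ‖f‖ :=
  coef_norm_le e B h f

lemma norm_sq_l2 (x : lp (fun _ : K => ℂ) 2) : ‖x‖ ^ 2 = ∑' k, ‖x k‖ ^ 2 := by
  have := lp.norm_rpow_eq_tsum (p := 2) (by norm_num) x
  simpa using this

lemma summable_l2 (x : lp (fun _ : K => ℂ) 2) : Summable fun k => ‖x k‖ ^ 2 := by
  have := (memℓp_gen_iff (p := 2) (E := fun _ : K => ℂ) (by norm_num)).1 x.2
  simpa using this

/-- Lower frame bound. -/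
lemma lower {e : K → H} {A B : ℝ} (hA : 0 < A) (hB : BB e B)
    (hd : Dense (Submodule.span ℂ (Set.range e) : Set H))
    (h : ∀ (s : Finset K) (c : K → ℂ), A * ∑ k ∈ s, ‖c k‖ ^ 2 ≤ ‖∑ k ∈ s, c k • e k‖ ^ 2)
    (f : H) : √A * ‖f‖ ≤ ‖ana e B hB f‖ := by
  have hcl : IsClosed {f : H | √A * ‖f‖ ≤ ‖ana e B hB f‖} :=
    isClosed_le (by fun_prop) (by fun_prop)
  refine hcl.closure_subset_iff.2 ?_ (hd f)
  intro f hf
  obtain ⟨c, rfl⟩ := (Finsupp.mem_span_range_iff_exists_finsupp).1 hf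
  set f : H := c.sum fun i a => a • e i with hfdef
  have hf' : f = ∑ k ∈ c.support, c k • e k := rfl
  set C : ℝ := √(∑ k ∈ c.support, ‖c k‖ ^ 2) with hC
  have hC2 : C ^ 2 = ∑ k ∈ c.support, ‖c k‖ ^ 2 :=
    Real.sq_sqrt (Finset.sum_nonneg fun _ _ => sq_nonneg _)
  have h1 : √A * C ≤ ‖f‖ := by
    refine le_of_sq_le_sq ?_ (norm_nonneg _)
    rw [mul_pow, Real.sq_sqrt hA.le, hC2, hf']
    exact h _ _
  have h2 : ‖f‖ ^ 2 ≤ C * ‖ana e B hB f‖ := by
    have h3 : inner ℂ f f = ∑ k ∈ c.support, (starRingEnd ℂ) (c k) * inner ℂ (e k) f := by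
      conv_lhs => rw [hf', sum_inner]
      refine Finset.sum_congr rfl fun k _ => ?_
      rw [inner_smul_left, ← hf']
    have h4 : ‖f‖ ^ 2 ≤ ∑ k ∈ c.support, ‖c k‖ * ‖inner ℂ (e k) f‖ := by
      have h5 : (‖f‖ ^ 2 : ℝ) = ‖inner ℂ f f‖ := by
        rw [inner_self_eq_norm_sq_to_K]
        simp
      rw [h5, h3]
      refine (norm_sum_le _ _).trans (Finset.sum_le_sum fun k _ => ?_)
      rw [norm_mul, RCLike.norm_conj]
    refine h4.trans ?_
    refine (Real.sum_mul_le_sqrt_mul_sqrt _ _ _).trans ?_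
    gcongr
    rw [Real.sqrt_le_left (norm_nonneg _), norm_sq_l2]
    exact (summable_l2 (ana e B hB f)).sum_le_tsum _ (fun _ _ => sq_nonneg _)
  rcases (norm_nonneg f).lt_or_eq with h6 | h6
  · have h7 : √A * ‖f‖ * ‖f‖ ≤ ‖ana e B hB f‖ * ‖f‖ := by
      calc √A * ‖f‖ * ‖f‖ = √A * ‖f‖ ^ 2 := by ring
        _ ≤ √A * (C * ‖ana e B hB f‖) := by gcongr
        _ = (√A * C) * ‖ana e B hB f‖ := by ring
        _ ≤ ‖f‖ * ‖ana e B hB f‖ := by gcongr
        _ = _ := by ring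
    exact le_of_mul_le_mul_right h7 h6
  · change √A * ‖f‖ ≤ ‖ana e B hB f‖
    rw [← h6]
    simp

/-- A dual vector. -/
lemma exists_dual [CompleteSpace H] [DecidableEq K] {e : K → H} {A : ℝ} (hA : 0 < A)
    (h : ∀ (s : Finset K) (c : K → ℂ), A * ∑ k ∈ s, ‖c k‖ ^ 2 ≤ ‖∑ k ∈ s, c k • e k‖ ^ 2)
    (k₀ : K) : ∃ γ : H, ∀ k, inner ℂ γ (e k) = if k = k₀ then 1 else 0 := by
  set W : Submodule ℂ H := (Submodule.span ℂ (e '' {k | k ≠ k₀})).topologicalClosure with hW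
  have : CompleteSpace W := (Submodule.isClosed_topologicalClosure _).completeSpace_coe
  have hnot : e k₀ ∉ W := by
    intro hmem
    have hmem' : e k₀ ∈ closure (Submodule.span ℂ (e '' {k | k ≠ k₀}) : Set H) := hmem
    rw [Metric.mem_closure_iff] at hmem'
    obtain ⟨w, hw, hdist⟩ := hmem' (√A) (by positivity)
    rw [SetLike.mem_coe, Finsupp.mem_span_image_iff_linearCombination] at hw
    obtain ⟨l, hl, rfl⟩ := hw
    have hl0 : k₀ ∉ l.support := by
      intro hk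
      exact (Finsupp.mem_supported ℂ l).1 hl hk rfl
    have h1 := h (insert k₀ l.support) (fun k => if k = k₀ then 1 else - l k)
    rw [Finset.sum_insert hl0, Finset.sum_insert hl0] at h1
    simp only [if_true, norm_one, one_pow, one_smul] at h1
    have h2 : ∑ k ∈ l.support, (if k = k₀ then (1:ℂ) else - l k) • e k
        = - Finsupp.linearCombination ℂ e l := by
      rw [Finsupp.linearCombination_apply, Finsupp.sum, ← Finset.sum_neg_distrib]
      refine Finset.sum_congr rfl fun k hk => ?_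
      have : k ≠ k₀ := fun h => hl0 (h ▸ hk)
      rw [if_neg this, neg_smul]
    rw [h2, ← sub_eq_add_neg, ← dist_eq_norm] at h1
    have h3 : dist (e k₀) (Finsupp.linearCombination ℂ e l) ^ 2 < A := by
      calc _ < (√A) ^ 2 := by gcongr
        _ = A := Real.sq_sqrt hA.le
    have h4 : A * 1 ≤ A * (1 + ∑ k ∈ l.support, ‖if k = k₀ then (1:ℂ) else - l k‖ ^ 2) := by
      gcongr
      have : 0 ≤ ∑ k ∈ l.support, ‖if k = k₀ then (1:ℂ) else - l k‖ ^ 2 :=
        Finset.sum_nonneg fun _ _ => sq_nonneg _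
      linarith
    linarith
  set γ₀ : H := e k₀ - W.starProjection (e k₀) with hγ₀
  have hγW : γ₀ ∈ Wᗮ := W.sub_starProjection_mem_orthogonal (e k₀)
  have hne : γ₀ ≠ 0 := by
    intro h0
    apply hnot
    rw [hγ₀, sub_eq_zero] at h0
    rw [h0]
    exact W.starProjection_apply_mem (e k₀)
  have hin : inner ℂ γ₀ (e k₀) = ((‖γ₀‖ ^ 2 : ℝ) : ℂ) := by
    have : e k₀ = γ₀ + W.starProjection (e k₀) := by rw [hγ₀]; abel
    rw [this, inner_add_right]
    have h1 : inner ℂ γ₀ (W.starProjection (e k₀)) = 0 :=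
      (Submodule.mem_orthogonal' W γ₀).1 hγW _ (W.starProjection_apply_mem (e k₀))
    rw [h1, add_zero, inner_self_eq_norm_sq_to_K]
    simp
  refine ⟨((‖γ₀‖ ^ 2 : ℝ) : ℂ)⁻¹ • γ₀, fun k => ?_⟩
  rw [inner_smul_left]
  by_cases hk : k = k₀
  · subst hk
    rw [if_pos rfl, hin, map_inv₀, Complex.conj_ofReal]
    have : ((‖γ₀‖ ^ 2 : ℝ) : ℂ) ≠ 0 := by
      exact_mod_cast (pow_pos (norm_pos_iff.2 hne) 2).ne'
    exact inv_mul_cancel₀ this
  · rw [if_neg hk]
    have h1 : inner ℂ γ₀ (e k) = 0 := by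
      refine (Submodule.mem_orthogonal' W γ₀).1 hγW _ ?_
      exact Submodule.le_topologicalClosure _ (Submodule.subset_span ⟨k, hk, rfl⟩)
    rw [h1, mul_zero]

/-- Bessel bound for a biorthogonal family. -/
lemma dual_bessel [DecidableEq K] {e e' : K → H} {A : ℝ} (hA : 0 < A)
    (hd : Dense (Submodule.span ℂ (Set.range e) : Set H))
    (h : ∀ (s : Finset K) (c : K → ℂ), A * ∑ k ∈ s, ‖c k‖ ^ 2 ≤ ‖∑ k ∈ s, c k • e k‖ ^ 2)
    (hbi : ∀ j k, inner ℂ (e' j) (e k) = if j = k then 1 else 0) : BB e' A⁻¹ := by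
  refine ⟨by positivity, fun f s => ?_⟩
  have hcl : IsClosed {f : H | ∑ k ∈ s, ‖inner ℂ (e' k) f‖ ^ 2 ≤ A⁻¹ * ‖f‖ ^ 2} :=
    isClosed_le (by fun_prop) (by fun_prop)
  refine hcl.closure_subset_iff.2 ?_ (hd f)
  intro f hf
  obtain ⟨c, rfl⟩ := (Finsupp.mem_span_range_iff_exists_finsupp).1 hf
  set f : H := c.sum fun i a => a • e i with hfdef
  have hf' : f = ∑ k ∈ c.support, c k • e k := rfl
  have hco : ∀ k, inner ℂ (e' k) f = c k := by
    intro k
    rw [hf', inner_sum]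
    simp only [inner_smul_right, hbi, mul_ite, mul_one, mul_zero]
    rw [Finset.sum_ite_eq]
    split_ifs with hk
    · rfl
    · exact (Finsupp.notMem_support_iff.1 hk).symm
  change ∑ k ∈ s, ‖inner ℂ (e' k) f‖ ^ 2 ≤ A⁻¹ * ‖f‖ ^ 2
  simp only [hco]
  have h1 : ∑ k ∈ s, ‖c k‖ ^ 2 ≤ ∑ k ∈ c.support, ‖c k‖ ^ 2 := by
    rw [← Finset.sum_filter_add_sum_filter_not s (fun k => k ∈ c.support)]
    have h2 : ∑ k ∈ s with k ∉ c.support, ‖c k‖ ^ 2 = 0 := by
      refine Finset.sum_eq_zero fun k hk => ?_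
      rw [Finsupp.notMem_support_iff.1 (Finset.mem_filter.1 hk).2]
      simp
    rw [h2, add_zero]
    refine Finset.sum_le_sum_of_subset_of_nonneg ?_ fun _ _ _ => sq_nonneg _
    intro k hk
    exact (Finset.mem_filter.1 hk).2
  have h3 := h c.support c
  rw [← hf'] at h3
  rw [← div_eq_inv_mul, le_div_iff₀' hA]
  exact (mul_le_mul_of_nonneg_left h1 hA.le).trans h3

/-- The expansion formula. -/
lemma expansion [DecidableEq K] {e e' : K → H} {A B : ℝ} (hB : BB e B) (hA : BB e' A)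
    (hd : Dense (Submodule.span ℂ (Set.range e) : Set H))
    (hbi : ∀ j k, inner ℂ (e' j) (e k) = if j = k then 1 else 0) (G F : H) :
    inner ℂ (ana e B hB G) (ana e' A hA F) = inner ℂ G F := by
  have h1 : (innerSL ℂ (ana e B hB G)).comp (ana e' A hA) = innerSL ℂ G := by
    refine ContinuousLinearMap.ext_on hd ?_
    rintro _ ⟨j, rfl⟩
    simp only [ContinuousLinearMap.comp_apply, innerSL_apply_apply]
    rw [lp.inner_eq_tsum, tsum_eq_single j]
    · simp only [ana_apply, hbi, if_true, RCLike.inner_apply, one_mul]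
      exact inner_conj_symm _ _
    · intro k hk
      simp only [ana_apply, hbi, if_neg hk, RCLike.inner_apply, zero_mul]
  have := congrArg (fun T : H →L[ℂ] ℂ => T F) h1
  simpa using this

end Pool.Agent.Q179.BLT
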