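import Mathlib.Analysis.Normed.Group.Tannery
import Pool.Agent.Q179.BLT.Abs

/-!
# A projective representation, a Riesz basis of coherent states, and two close shifts
-/

set_option autoImplicit false

open Filter Topology

namespace Pool.Agent.Q179.BLT

/-- The phase `exp (2 π i r)`. -/
noncomputable def E (r : ℝ) : ℂ := Complex.exp ((2 * Real.pi * r : ℝ) * Complex.I)

@[simp] lemma E_zero : E 0 = 1 := by simp [E]

lemma E_add (a b : ℝ) : E (a + b) = E a * E b := by
  rw [E, E, E, ← Complex.exp_add]; congr 1; push_cast; ring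

@[simp] lemma norm_E (a : ℝ) : ‖E a‖ = 1 := Complex.norm_exp_ofReal_mul_I _

lemma conj_E (a : ℝ) : (starRingEnd ℂ) (E a) = E (-a) := by
  rw [E, E, ← Complex.exp_conj]; congr 1
  rw [map_mul, Complex.conj_ofReal, Complex.conj_I]; push_cast; ring

lemma E_mul_neg (a : ℝ) : E a * E (-a) = 1 := by rw [← E_add]; simp

lemma continuous_E : Continuous E := by unfold E; fun_prop

variable {H : Type*} [NormedAddCommGroup H] [InnerProductSpace ℂ H]
variable {V : Type*} [AddCommGroup V] [Module ℝ V]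

/-- A projective representation with cocycle `E (-β z w)`. -/
structure IsRep (β : V →ₗ[ℝ] V →ₗ[ℝ] ℝ) (P : V → H →ₗᵢ[ℂ] H) : Prop where
  zero : ∀ x, P 0 x = x
  comp : ∀ z w x, P z (P w x) = E (-(β z w)) • P (z + w) x

variable {β : V →ₗ[ℝ] V →ₗ[ℝ] ℝ} {P : V → H →ₗᵢ[ℂ] H}

lemma IsRep.swap (h : IsRep β P) (z w : V) (x y : H) :
    inner ℂ (P (-w) x) (P z y) =
      E (β z z - β w w + (β z w - β w z)) * inner ℂ (P (-z) x) (P w y) := by
  have key : ∀ u v : V, inner ℂ (P (-u) x) (P v y) =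
      E (-(β u u + β u v)) * inner ℂ x (P (u + v) y) := by
    intro u v
    rw [← (P u).inner_map_map (P (-u) x) (P v y), h.comp, h.comp, add_neg_cancel, h.zero,
      inner_smul_left, inner_smul_right, conj_E, ← mul_assoc, ← E_add]
    congr 2
    simp only [map_neg]
    ring
  rw [key w z, key z w, ← mul_assoc, ← E_add, add_comm z w]
  congr 2
  ring

variable {K : Type*} [AddCommGroup K]

/-- The biorthogonality. -/
lemma IsRep.biorth [DecidableEq K] (h : IsRep β P) (L : K →+ V) {g γ : H}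
    (hγ : ∀ k, inner ℂ γ (P (L k) g) = if k = 0 then 1 else 0) (j k : K) :
    inner ℂ (P (L j) γ) (P (L k) g) = if j = k then 1 else 0 := by
  have h1 : P (L k) g = E (β (L j) (L (k - j))) • P (L j) (P (L (k - j)) g) := by
    rw [h.comp, smul_smul, E_mul_neg, one_smul, ← map_add]
    congr 2
    congr 1
    abel
  rw [h1, inner_smul_right, (P (L j)).inner_map_map, hγ]
  by_cases hjk : j = k
  · subst hjk
    simp
  · rw [if_neg hjk, if_neg (by intro h0; exact hjk (sub_eq_zero.1 h0).symm), mul_zero]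

/-- Difference of a shifted vector. -/
noncomputable def df (P : V → H →ₗᵢ[ℂ] H) (w : V) (x : H) : H := P w x - x

/-- The swap relation for differences. -/
lemma IsRep.swap_df [DecidableEq K] (h : IsRep β P) (L : K →+ V) {x y : H}
    (hxy : ∀ k, inner ℂ (P (L k) x) y = if k = 0 then 1 else 0) (w : V) (hw : β w w = 0) (k : K) :
    inner ℂ (df P (-w) x) (P (L k) y) =
      E (β (L k) (L k) + (β (L k) w - β w (L k))) * inner ℂ (P (L (-k)) x) (df P w y) := by
  rw [df, df, inner_sub_left, inner_sub_right, h.swap (L k) w x y, hw, sub_zero]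
  have h2 := h.swap (L k) 0 x y
  simp only [neg_zero, h.zero, map_zero, LinearMap.zero_apply, sub_zero, add_zero] at h2
  rw [h2, ← map_neg, mul_sub, hxy]
  by_cases hk : k = 0
  · subst hk
    simp
  · rw [if_neg (by simpa using hk)]
    simp

/-- The commutator identity. -/
lemma IsRep.comm_identity (h : IsRep β P) {p q : V} (hp : β p p = 0) (hq : β q q = 0)
    (hpq : β p q = 1) (hqp : β q p = 0) (t : ℝ) (g γ : H) :
    inner ℂ (df P (t • p) γ) (df P (t • q) g) - inner ℂ (df P (-(t • q)) γ) (df P (-(t • p)) g) =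
      (1 - E (-(t ^ 2))) * inner ℂ (P (t • p) γ) (P (t • q) g) := by
  have h1 := h.swap (-(t • p)) (t • q) γ g
  have h2 := h.swap 0 (t • q) γ g
  have h3 := h.swap (-(t • p)) 0 γ g
  simp only [neg_zero, neg_neg, h.zero, map_zero, map_neg, map_smul, LinearMap.zero_apply,
    LinearMap.neg_apply, LinearMap.smul_apply, smul_eq_mul, sub_zero, add_zero, hp, hq, hpq, hqp,
    mul_zero, mul_one, sub_self, neg_zero, E_zero, one_mul] at h1 h2 h3
  rw [df, df, df, df]
  simp only [inner_sub_left, inner_sub_right]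
  rw [h1, h2, h3]
  have : 0 + t * -t = -(t ^ 2) := by ring
  rw [this]
  ring

/-- Bounded multipliers on `ℓ²`. -/
noncomputable def mulc {K : Type*} (c : K → ℂ) (hc : ∀ k, ‖c k‖ ≤ 2)
    (x : lp (fun _ : K => ℂ) 2) : lp (fun _ : K => ℂ) 2 :=
  ⟨fun k => c k * x k, memℓp_gen (by
    have h1 : Summable fun k => 4 * ‖x k‖ ^ 2 := (summable_l2 x).mul_left 4
    refine Summable.of_nonneg_of_le (fun _ => by positivity) (fun k => ?_) h1
    have h2 : ‖c k‖ ^ 2 ≤ 4 := by nlinarith [hc k, norm_nonneg (c k)]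
    simp only [norm_mul, ENNReal.toReal_ofNat, Real.rpow_ofNat, mul_pow]
    gcongr)⟩

lemma mulc_apply {K : Type*} (c : K → ℂ) (hc : ∀ k, ‖c k‖ ≤ 2)
    (x : lp (fun _ : K => ℂ) 2) (k : K) : mulc c hc x k = c k * x k := rfl

lemma mulc_norm_le {K : Type*} (c : K → ℂ) (hc : ∀ k, ‖c k‖ ≤ 2)
    (x : lp (fun _ : K => ℂ) 2) : ‖mulc c hc x‖ ≤ 2 * ‖x‖ := by
  refine le_of_sq_le_sq ?_ (by positivity)
  rw [mul_pow, norm_sq_l2, norm_sq_l2, ← tsum_mul_left]
  refine Summable.tsum_le_tsum (fun k => ?_) (summable_l2 _) ((summable_l2 x).mul_left _)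
  rw [mulc_apply, norm_mul, mul_pow]
  have h2 : ‖c k‖ ^ 2 ≤ 2 ^ 2 := by nlinarith [hc k, norm_nonneg (c k)]
  gcongr

lemma mulc_sub {K : Type*} (c : K → ℂ) (hc : ∀ k, ‖c k‖ ≤ 2)
    (x y : lp (fun _ : K => ℂ) 2) : mulc c hc (x - y) = mulc c hc x - mulc c hc y := by
  ext k
  change c k * (x k - y k) = c k * x k - c k * y k
  ring

lemma mulc_tendsto {K : Type*} {l : Filter ℝ} (c : ℝ → K → ℂ) (hc : ∀ t k, ‖c t k‖ ≤ 2)
    (h0 : ∀ k, Tendsto (fun t => c t k) l (𝓝 0)) (x : lp (fun _ : K => ℂ) 2) :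
    Tendsto (fun t => ‖mulc (c t) (hc t) x‖) l (𝓝 0) := by
  have h1 : Tendsto (fun t => ‖mulc (c t) (hc t) x‖ ^ 2) l (𝓝 (∑' _k : K, (0:ℝ))) := by
    simp only [norm_sq_l2]
    refine tendsto_tsum_of_dominated_convergence ((summable_l2 x).mul_left 4) (fun k => ?_)
      (Eventually.of_forall fun t k => ?_)
    · have h2 : Tendsto (fun t => ‖c t k * x k‖ ^ 2) l (𝓝 (‖0 * x k‖ ^ 2)) :=
        (((h0 k).mul_const _).norm).pow 2
      simpa [mulc_apply] using h2
    · rw [mulc_apply, norm_mul, mul_pow, Real.norm_of_nonneg (by positivity)]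
      have h2 : ‖c t k‖ ^ 2 ≤ 4 := by nlinarith [hc t k, norm_nonneg (c t k)]
      gcongr
  rw [tsum_zero] at h1
  have h2 := h1.sqrt
  simpa [Real.sqrt_sq (norm_nonneg _)] using h2

/-- **Abstract Balian-Low theorem.** -/
theorem abstract_blt [CompleteSpace H] (h : IsRep β P) {p q : V} (hp : β p p = 0)
    (hq : β q q = 0) (hpq : β p q = 1) (hqp : β q p = 0) (L : K →+ V) (g v : H) {A B : ℝ}
    (hA : 0 < A) (hB : 0 ≤ B)
    (hlow : ∀ (s : Finset K) (c : K → ℂ),
      A * ∑ k ∈ s, ‖c k‖ ^ 2 ≤ ‖∑ k ∈ s, c k • P (L k) g‖ ^ 2)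
    (hupp : ∀ (s : Finset K) (c : K → ℂ),
      ‖∑ k ∈ s, c k • P (L k) g‖ ^ 2 ≤ B * ∑ k ∈ s, ‖c k‖ ^ 2)
    (hd : Dense (Submodule.span ℂ (Set.range fun k => P (L k) g) : Set H))
    (hM : Tendsto (fun t : ℝ => ((t⁻¹ : ℝ) : ℂ) • df P (t • q) g) (𝓝[≠] 0) (𝓝 v))
    (C : ℝ) (hT : ∀ t : ℝ, ‖df P (t • p) g‖ ≤ C * |t|) : False := by
  classical
  set e : K → H := fun k => P (L k) g with he
  have bb : BB e B := BB.of_upper hB hupp
  obtain ⟨γ, hγ⟩ := exists_dual hA hlow 0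
  have hγ1 : inner ℂ γ g = 1 := by
    have := hγ 0
    rw [if_pos rfl] at this
    simpa [he, h.zero] using this
  set e' : K → H := fun k => P (L k) γ with he'
  have hbi : ∀ j k, inner ℂ (e' j) (e k) = if j = k then 1 else 0 := h.biorth L hγ
  have bb' : BB e' A⁻¹ := dual_bessel hA hd hlow hbi
  have hxy1 : ∀ k, inner ℂ (P (L k) g) γ = if k = 0 then 1 else 0 := by
    intro k
    rw [← inner_conj_symm, hγ]
    split_ifs <;> simp
  have hxy2 : ∀ k, inner ℂ (P (L k) γ) g = if k = 0 then 1 else 0 := by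
    intro k
    have := hbi k 0
    simpa [he, he', h.zero] using this
  -- step (a)
  have hY : ∀ t : ℝ, ‖df P (t • p) γ‖ ≤ A⁻¹ * C * |t| := by
    intro t
    have h1 : √A * ‖df P (t • p) γ‖ ≤ ‖ana e B bb (df P (t • p) γ)‖ :=
      lower hA bb hd hlow _
    have h2 : ‖ana e B bb (df P (t • p) γ)‖ = ‖ana e' A⁻¹ bb' (df P (-(t • p)) g)‖ := by
      refine (sq_eq_sq₀ (norm_nonneg _) (norm_nonneg _)).1 ?_
      rw [norm_sq_l2, norm_sq_l2, ← (Equiv.neg K).tsum_eq]
      refine tsum_congr fun k => ?_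
      rw [ana_apply, ana_apply, ← norm_inner_symm (df P (-(t • p)) g) (e' k)]
      have := h.swap_df L hxy1 (t • p) (by simp [hp]) k
      rw [he', this, norm_mul, norm_E, one_mul]
      rfl
    have h3 : ‖ana e' A⁻¹ bb' (df P (-(t • p)) g)‖ ≤ √A⁻¹ * ‖df P (-(t • p)) g‖ :=
      ana_norm_le _ _ _ _
    have h4 : ‖df P (-(t • p)) g‖ ≤ C * |t| := by
      have := hT (-t)
      rwa [neg_smul, abs_neg] at this
    have h5 : √A * ‖df P (t • p) γ‖ ≤ √A⁻¹ * (C * |t|) := by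
      calc _ ≤ _ := h1
        _ = _ := h2
        _ ≤ _ := h3
        _ ≤ _ := by gcongr
    have hsA : 0 < √A := Real.sqrt_pos.2 hA
    rw [Real.sqrt_inv] at h5
    have h6 : (√A)⁻¹ * (√A * ‖df P (t • p) γ‖) ≤ (√A)⁻¹ * ((√A)⁻¹ * (C * |t|)) := by gcongr
    rw [inv_mul_cancel_left₀ hsA.ne', ← mul_assoc, ← mul_inv, Real.mul_self_sqrt hA.le] at h6
    linarith
  -- the multipliers
  set bk : K → ℝ := fun k => (β (L k) q - β q (L k)) - (β (L k) p - β p (L k)) with hbk
  set c : ℝ → K → ℂ := fun t k => 1 - E (-(t * bk k)) with hcdef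
  have hc2 : ∀ t k, ‖c t k‖ ≤ 2 := by
    intro t k
    refine (norm_sub_le _ _).trans ?_
    rw [norm_one, norm_E]; norm_num
  have hc0 : ∀ k, Tendsto (fun t => c t k) (𝓝[≠] 0) (𝓝 0) := by
    intro k
    have : Continuous fun t => c t k := by
      simp only [hcdef]
      exact continuous_const.sub (continuous_E.comp (by fun_prop))
    have h1 := (this.tendsto 0).mono_left (nhdsWithin_le_nhds (s := {0}ᶜ))
    simpa [hcdef] using h1
  -- step (b)
  have hΔ : ∀ t : ℝ, (1 - E (-(t ^ 2))) * inner ℂ (P (t • p) γ) (P (t • q) g) =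
      inner ℂ (ana e B bb (df P (t • p) γ))
        (mulc (c t) (hc2 t) (ana e' A⁻¹ bb' (df P (t • q) g))) := by
    intro t
    rw [← h.comm_identity hp hq hpq hqp t g γ, ← expansion bb bb' hd hbi,
      ← expansion bb bb' hd hbi, lp.inner_eq_tsum, lp.inner_eq_tsum, lp.inner_eq_tsum,
      ← (Equiv.neg K).tsum_eq (fun k => inner ℂ (ana e B bb (df P (-(t • q)) γ) k)
        (ana e' A⁻¹ bb' (df P (-(t • p)) g) k)), ← Summable.tsum_sub]
    · refine tsum_congr fun k => ?_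
      have h1 := h.swap_df L hxy1 (t • p) (by simp [hp]) (-k)
      have h2 := h.swap_df L hxy2 (t • q) (by simp [hq]) (-k)
      simp only [neg_neg] at h1 h2
      simp only [RCLike.inner_apply, mulc_apply, ana_apply, Equiv.neg_apply, hcdef]
      have h3 : inner ℂ (e' (-k)) (df P (-(t • p)) g) = (starRingEnd ℂ) (
          inner ℂ (df P (-(t • p)) g) (P (L (-k)) γ)) := (inner_conj_symm _ _).symm
      have h4 : (starRingEnd ℂ) (inner ℂ (e (-k)) (df P (-(t • q)) γ)) =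
          inner ℂ (df P (-(t • q)) γ) (P (L (-k)) g) := inner_conj_symm _ _
      rw [h3, h4, h1, h2, map_mul, conj_E]
      have h5 : E (-(β (L (-k)) (L (-k)) + (β (L (-k)) (t • p) - β (t • p) (L (-k))))) *
          E (β (L (-k)) (L (-k)) + (β (L (-k)) (t • q) - β (t • q) (L (-k)))) =
          E (-(t * bk k)) := by
        rw [← E_add]
        congr 1
        simp only [map_neg, map_smul, LinearMap.neg_apply, LinearMap.smul_apply, smul_eq_mul, hbk]
        ring
      rw [← h5]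
      ring
    · exact (lp.hasSum_inner _ _).summable
    · exact (Equiv.neg K).summable_iff.2 (lp.hasSum_inner _ _).summable
  -- the limit of the right-hand side
  have hsm : ∀ t : ℝ, t ≠ 0 → ((t⁻¹ : ℝ) : ℂ) * ((t⁻¹ : ℝ) : ℂ) *
      inner ℂ (ana e B bb (df P (t • p) γ))
        (mulc (c t) (hc2 t) (ana e' A⁻¹ bb' (df P (t • q) g))) =
      inner ℂ (ana e B bb (((t⁻¹ : ℝ) : ℂ) • df P (t • p) γ))
        (mulc (c t) (hc2 t) (ana e' A⁻¹ bb' (((t⁻¹ : ℝ) : ℂ) • df P (t • q) g))) := by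
    intro t _
    have h1 : mulc (c t) (hc2 t) (ana e' A⁻¹ bb' (((t⁻¹ : ℝ) : ℂ) • df P (t • q) g)) =
        ((t⁻¹ : ℝ) : ℂ) • mulc (c t) (hc2 t) (ana e' A⁻¹ bb' (df P (t • q) g)) := by
      rw [map_smul]
      ext k
      change c t k * (((t⁻¹ : ℝ) : ℂ) * _) = ((t⁻¹ : ℝ) : ℂ) * (c t k * _)
      ring
    rw [h1, map_smul, inner_smul_left, inner_smul_right, Complex.conj_ofReal]
    ring
  have hlim0 : Tendsto (fun t : ℝ => ((t⁻¹ : ℝ) : ℂ) * ((t⁻¹ : ℝ) : ℂ) *
      inner ℂ (ana e B bb (df P (t • p) γ))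
        (mulc (c t) (hc2 t) (ana e' A⁻¹ bb' (df P (t • q) g)))) (𝓝[≠] 0) (𝓝 0) := by
    rw [tendsto_zero_iff_norm_tendsto_zero]
    have hbound : ∀ᶠ t in 𝓝[≠] (0:ℝ), ‖((t⁻¹ : ℝ) : ℂ) * ((t⁻¹ : ℝ) : ℂ) *
      inner ℂ (ana e B bb (df P (t • p) γ))
        (mulc (c t) (hc2 t) (ana e' A⁻¹ bb' (df P (t • q) g)))‖ ≤
        (√B * (A⁻¹ * C)) * (‖mulc (c t) (hc2 t) (ana e' A⁻¹ bb' v)‖ +
          2 * (√A⁻¹ * ‖((t⁻¹ : ℝ) : ℂ) • df P (t • q) g - v‖)) := by
      filter_upwards [self_mem_nhdsWithin] with t ht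
      rw [hsm t ht]
      refine (norm_inner_le_norm _ _).trans ?_
      have h1 : ‖ana e B bb (((t⁻¹ : ℝ) : ℂ) • df P (t • p) γ)‖ ≤ √B * (A⁻¹ * C) := by
        refine (ana_norm_le _ _ _ _).trans ?_
        have ht' : 0 < |t| := abs_pos.2 ht
        have h2 : ‖((t⁻¹ : ℝ) : ℂ) • df P (t • p) γ‖ ≤ A⁻¹ * C := by
          rw [norm_smul, Complex.norm_real, Real.norm_eq_abs, abs_inv]
          have := hY t
          calc |t|⁻¹ * ‖df P (t • p) γ‖ ≤ |t|⁻¹ * (A⁻¹ * C * |t|) := by gcongr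
            _ = A⁻¹ * C := by field_simp
        gcongr
      have h3 : ‖mulc (c t) (hc2 t) (ana e' A⁻¹ bb' (((t⁻¹ : ℝ) : ℂ) • df P (t • q) g))‖ ≤
          ‖mulc (c t) (hc2 t) (ana e' A⁻¹ bb' v)‖ +
          2 * (√A⁻¹ * ‖((t⁻¹ : ℝ) : ℂ) • df P (t • q) g - v‖) := by
        have h4 : mulc (c t) (hc2 t) (ana e' A⁻¹ bb' (((t⁻¹ : ℝ) : ℂ) • df P (t • q) g)) =
            mulc (c t) (hc2 t) (ana e' A⁻¹ bb' v) + mulc (c t) (hc2 t)
              (ana e' A⁻¹ bb' (((t⁻¹ : ℝ) : ℂ) • df P (t • q) g - v)) := by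
          rw [map_sub, mulc_sub]; abel
        rw [h4]
        refine (norm_add_le _ _).trans ?_
        gcongr
        refine (mulc_norm_le _ _ _).trans ?_
        gcongr
        exact ana_norm_le _ _ _ _
      have h5 : 0 ≤ √B * (A⁻¹ * C) := (norm_nonneg _).trans h1
      gcongr
    refine squeeze_zero' (Eventually.of_forall fun _ => norm_nonneg _) hbound ?_
    have h1 : Tendsto (fun t : ℝ => ‖((t⁻¹ : ℝ) : ℂ) • df P (t • q) g - v‖) (𝓝[≠] 0) (𝓝 0) :=
      tendsto_iff_norm_sub_tendsto_zero.1 hM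
    have h2 := mulc_tendsto (l := 𝓝[≠] (0:ℝ)) c hc2 hc0 (ana e' A⁻¹ bb' v)
    have h3 := (h2.add ((h1.const_mul √A⁻¹).const_mul 2)).const_mul (√B * (A⁻¹ * C))
    simpa using h3
  -- the limit of the left-hand side
  have hlim1 : Tendsto (fun t : ℝ => ((t⁻¹ : ℝ) : ℂ) * ((t⁻¹ : ℝ) : ℂ) *
      ((1 - E (-(t ^ 2))) * inner ℂ (P (t • p) γ) (P (t • q) g))) (𝓝[≠] 0)
      (𝓝 (2 * Real.pi * Complex.I)) := by
    have h1 : Tendsto (fun t : ℝ => ((t⁻¹ : ℝ) : ℂ) * ((t⁻¹ : ℝ) : ℂ) * (1 - E (-(t ^ 2))))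
        (𝓝[≠] 0) (𝓝 (2 * Real.pi * Complex.I)) := by
      have h2 : HasDerivAt (fun s : ℝ => E (-s)) (-(2 * Real.pi * Complex.I)) 0 := by
        have h3 : HasDerivAt (fun s : ℝ => ((2 * Real.pi * (-s) : ℝ) : ℂ) * Complex.I)
            (-(2 * Real.pi * Complex.I)) 0 := by
          have h4 : HasDerivAt (fun s : ℝ => (s : ℂ)) 1 0 := Complex.ofRealCLM.hasDerivAt
          have h5 := (h4.const_mul (-(2 * Real.pi * Complex.I)))
          refine (h5.congr_of_eventuallyEq (Eventually.of_forall fun s => ?_)).congr_deriv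
            (by ring)
          push_cast
          ring
        have h6 := h3.cexp
        simpa [E] using h6
      have h7 := h2.tendsto_slope
      have h8 : Tendsto (fun t : ℝ => t ^ 2) (𝓝[≠] 0) (𝓝[≠] 0) := by
        refine tendsto_nhdsWithin_iff.2 ⟨?_, ?_⟩
        · have : Tendsto (fun t : ℝ => t ^ 2) (𝓝 0) (𝓝 (0 ^ 2)) :=
            (continuous_pow 2).tendsto 0
          rw [zero_pow two_ne_zero] at this
          exact this.mono_left nhdsWithin_le_nhds
        · filter_upwards [self_mem_nhdsWithin] with t ht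
          exact pow_ne_zero 2 ht
      have h9 := (h7.comp h8).neg
      rw [neg_neg] at h9
      refine h9.congr fun t => ?_
      simp only [Function.comp_apply, slope, sub_zero, vsub_eq_sub, neg_zero, E_zero]
      rw [Complex.real_smul]
      push_cast
      ring
    have h2 : Tendsto (fun t : ℝ => inner ℂ (P (t • p) γ) (P (t • q) g)) (𝓝[≠] 0) (𝓝 1) := by
      have h3 : Tendsto (fun t : ℝ => P (t • p) γ) (𝓝[≠] 0) (𝓝 γ) := by
        rw [tendsto_iff_norm_sub_tendsto_zero]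
        refine squeeze_zero (fun _ => norm_nonneg _) hY ?_
        have : Tendsto (fun t : ℝ => A⁻¹ * C * |t|) (𝓝 0) (𝓝 (A⁻¹ * C * |0|)) :=
          (continuous_const.mul continuous_abs).tendsto 0
        rw [abs_zero, mul_zero] at this
        exact this.mono_left nhdsWithin_le_nhds
      have h4 : Tendsto (fun t : ℝ => P (t • q) g) (𝓝[≠] 0) (𝓝 g) := by
        have h5 : Tendsto (fun t : ℝ => (t : ℂ)) (𝓝[≠] 0) (𝓝 ((0 : ℝ) : ℂ)) :=
          (Complex.continuous_ofReal.tendsto 0).mono_left nhdsWithin_le_nhds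
        have h6 := (h5.smul hM).add_const g
        rw [Complex.ofReal_zero, zero_smul, zero_add] at h6
        refine h6.congr' ?_
        filter_upwards [self_mem_nhdsWithin] with t ht
        have ht' : (t : ℂ) ≠ 0 := by exact_mod_cast ht
        rw [smul_smul, Complex.ofReal_inv, mul_inv_cancel₀ ht', one_smul, df]
        abel
      have := h3.inner (𝕜 := ℂ) h4
      rwa [hγ1] at this
    have h3 := h1.mul h2
    rw [mul_one] at h3
    refine h3.congr fun t => ?_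
    ring
  have hlim2 := hlim1.congr fun t => by rw [hΔ t]
  have := tendsto_nhds_unique hlim0 hlim2
  have hne : (2 * Real.pi * Complex.I : ℂ) ≠ 0 := Complex.two_pi_I_ne_zero
  exact hne this.symm

end Pool.Agent.Q179.BLT
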