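import Mathlib
import Pool.Agent.Q179.BLT.Rep

/-!
# Time-frequency shifts on `L²(ℝ^d)`
-/

set_option autoImplicit false

open Filter Topology MeasureTheory

namespace Pool.Agent.Q179.BLT

variable {d : ℕ}

/-- The configuration space. -/
abbrev X (d : ℕ) := Fin d → ℝ

/-- The time-frequency plane. -/
abbrev TF (d : ℕ) := (Fin d → ℝ) × (Fin d → ℝ)

/-- The Hilbert space. -/
noncomputable abbrev HH (d : ℕ) := Lp ℂ 2 (volume : Measure (X d))

/-- Time-frequency shift of a function. -/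
noncomputable def sh (z : TF d) (f : X d → ℂ) : X d → ℂ := fun x => E (z.2 ⬝ᵥ x) * f (x - z.1)

lemma mp (a : X d) : MeasurePreserving (fun x : X d => x - a) volume volume :=
  measurePreserving_sub_right volume a

lemma E_dot_cont (b : X d) : Continuous fun x : X d => E (b ⬝ᵥ x) :=
  continuous_E.comp (by unfold dotProduct; fun_prop)

lemma sh_congr (z : TF d) {f g : X d → ℂ} (h : f =ᵐ[volume] g) : sh z f =ᵐ[volume] sh z g := by
  have := (mp z.1).quasiMeasurePreserving.ae_eq_comp h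
  filter_upwards [this] with x hx
  simp only [sh]
  rw [show f (x - z.1) = g (x - z.1) from hx]

lemma sh_memLp (z : TF d) {f : X d → ℂ} (hf : MemLp f 2 volume) : MemLp (sh z f) 2 volume := by
  have h1 : MemLp (fun x => f (x - z.1)) 2 volume := hf.comp_measurePreserving (mp z.1)
  refine h1.congr_norm ((E_dot_cont z.2).aestronglyMeasurable.mul h1.1) ?_
  exact Eventually.of_forall fun x => by simp [sh]

lemma sh_eLpNorm (z : TF d) {f : X d → ℂ} (hf : MemLp f 2 volume) :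
    eLpNorm (sh z f) 2 volume = eLpNorm f 2 volume := by
  rw [← eLpNorm_comp_measurePreserving hf.1 (mp z.1)]
  exact eLpNorm_congr_norm_ae (Eventually.of_forall fun x => by simp [sh])

/-- Time-frequency shift on `L²`. -/
noncomputable def P (z : TF d) : HH d →ₗᵢ[ℂ] HH d where
  toFun f := (sh_memLp z (Lp.memLp f)).toLp (sh z f)
  map_add' f g := by
    rw [← MemLp.toLp_add, MemLp.toLp_eq_toLp_iff]
    refine (sh_congr z (Lp.coeFn_add f g)).trans (Eventually.of_forall fun x => ?_)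
    simp only [sh, Pi.add_apply]
    ring
  map_smul' c f := by
    rw [RingHom.id_apply, ← MemLp.toLp_const_smul, MemLp.toLp_eq_toLp_iff]
    refine (sh_congr z (Lp.coeFn_smul c f)).trans (Eventually.of_forall fun x => ?_)
    simp only [sh, Pi.smul_apply, smul_eq_mul]
    ring
  norm_map' f := by
    change ‖(sh_memLp z (Lp.memLp f)).toLp (sh z f)‖ = ‖f‖
    rw [Lp.norm_toLp, sh_eLpNorm z (Lp.memLp f), Lp.norm_def]

lemma P_apply (z : TF d) (f : HH d) : P z f = (sh_memLp z (Lp.memLp f)).toLp (sh z f) := rfl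

lemma P_toLp (z : TF d) {f : X d → ℂ} (hf : MemLp f 2 volume) :
    P z (hf.toLp f) = (sh_memLp z hf).toLp (sh z f) := by
  rw [P_apply, MemLp.toLp_eq_toLp_iff]
  exact sh_congr z hf.coeFn_toLp

/-- The cocycle. -/
noncomputable def bt (d : ℕ) : TF d →ₗ[ℝ] TF d →ₗ[ℝ] ℝ :=
  LinearMap.mk₂ ℝ (fun z w => z.1 ⬝ᵥ w.2)
    (fun z z' w => by simp [add_dotProduct]) (fun c z w => by simp [smul_dotProduct])
    (fun z w w' => by simp [dotProduct_add]) (fun c z w => by simp [dotProduct_smul])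

@[simp] lemma bt_apply (z w : TF d) : bt d z w = z.1 ⬝ᵥ w.2 := rfl

lemma isRep : IsRep (bt d) (P (d := d)) where
  zero x := by
    rw [P_apply]
    apply Lp.ext
    refine (MemLp.coeFn_toLp _).trans (Eventually.of_forall fun y => ?_)
    simp [sh]
  comp z w x := by
    have h1 : P w x = (sh_memLp w (Lp.memLp x)).toLp (sh w x) := rfl
    rw [h1, P_toLp, P_apply, ← MemLp.toLp_const_smul, MemLp.toLp_eq_toLp_iff]
    refine Eventually.of_forall fun y => ?_
    simp only [sh, Pi.smul_apply, smul_eq_mul, bt_apply, Prod.fst_add, Prod.snd_add]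
    rw [← mul_assoc, ← mul_assoc, ← E_add, ← E_add]
    congr 2
    · rw [dotProduct_sub, add_dotProduct, dotProduct_comm z.1 w.2]
      ring
    · abel

lemma norm_toLp_sq {f : X d → ℂ} (hf : MemLp f 2 volume) :
    ‖hf.toLp f‖ ^ 2 = ∫ x, ‖f x‖ ^ 2 := by
  have h1 : ((‖hf.toLp f‖ ^ 2 : ℝ) : ℂ) = ((∫ x, ‖f x‖ ^ 2 : ℝ) : ℂ) := by
    have h2 := inner_self_eq_norm_sq_to_K (𝕜 := ℂ) (hf.toLp f)
    have h3 : ((‖hf.toLp f‖ ^ 2 : ℝ) : ℂ) = (‖hf.toLp f‖ : ℂ) ^ 2 := by push_cast; rfl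
    rw [h3]
    rw [show (‖hf.toLp f‖ : ℂ) ^ 2 = inner ℂ (hf.toLp f) (hf.toLp f) from h2.symm]
    rw [L2.inner_def, ← integral_complex_ofReal]
    refine integral_congr_ae ?_
    filter_upwards [hf.coeFn_toLp] with x hx
    rw [hx, inner_self_eq_norm_sq_to_K]
    push_cast
    rfl
  exact_mod_cast h1

lemma coeFn_sum {K : Type*} (s : Finset K) (c : K → ℂ) (f : K → X d → ℂ)
    (hf : ∀ k, MemLp (f k) 2 volume) :
    ⇑(∑ k ∈ s, c k • (hf k).toLp (f k)) =ᵐ[volume] fun x => ∑ k ∈ s, c k * f k x := by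
  classical
  induction s using Finset.induction_on with
  | empty =>
    simp only [Finset.sum_empty]
    exact Lp.coeFn_zero _ _ _
  | insert a s ha ih =>
    rw [Finset.sum_insert ha]
    refine (Lp.coeFn_add _ _).trans ?_
    filter_upwards [ih, Lp.coeFn_smul (c a) ((hf a).toLp (f a)), (hf a).coeFn_toLp]
      with x h1 h2 h3
    rw [Pi.add_apply, h1, h2, Pi.smul_apply, h3, Finset.sum_insert ha, smul_eq_mul]

lemma norm_sum_sq {K : Type*} (s : Finset K) (c : K → ℂ) (f : K → X d → ℂ)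
    (hf : ∀ k, MemLp (f k) 2 volume) :
    ‖∑ k ∈ s, c k • (hf k).toLp (f k)‖ ^ 2 = ∫ x, ‖∑ k ∈ s, c k * f k x‖ ^ 2 := by
  have h1 := norm_toLp_sq (Lp.memLp (∑ k ∈ s, c k • (hf k).toLp (f k)))
  rw [Lp.toLp_coeFn] at h1
  rw [h1]
  refine integral_congr_ae ?_
  filter_upwards [coeFn_sum s c f hf] with x hx
  rw [hx]

lemma inner_toLp {f g : X d → ℂ} (hf : MemLp f 2 volume) (hg : MemLp g 2 volume) :
    inner ℂ (hf.toLp f) (hg.toLp g) = ∫ x, (starRingEnd ℂ) (f x) * g x := by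
  rw [L2.inner_def]
  refine integral_congr_ae ?_
  filter_upwards [hf.coeFn_toLp, hg.coeFn_toLp] with x h1 h2
  rw [h1, h2, RCLike.inner_apply, mul_comm]

end Pool.Agent.Q179.BLT
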