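import Mathlib
import Pool.Agent.Q179.BLT.Real

/-!
# Difference quotients of shifts
-/

set_option autoImplicit false

open Filter Topology MeasureTheory
open scoped ContDiff

namespace Pool.Agent.Q179.BLT

variable {d : ℕ}

/-- The translation direction. -/
noncomputable def pv (j : Fin d) : TF d := (Pi.single j 1, 0)

/-- The modulation direction. -/
noncomputable def qv (j : Fin d) : TF d := (0, Pi.single j 1)

lemma norm_E_sub_one_le (r : ℝ) : ‖E r - 1‖ ≤ 2 * Real.pi * |r| := by
  have := Real.norm_exp_I_mul_ofReal_sub_one_le (x := 2 * Real.pi * r)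
  rw [E, mul_comm]
  refine this.trans ?_
  rw [Real.norm_eq_abs, abs_mul, abs_of_pos Real.two_pi_pos]

lemma df_q {g : X d → ℂ} (hg : MemLp g 2 volume) (j : Fin d) (t : ℝ) :
    ⇑(df P (t • qv j) (hg.toLp g) : HH d) =ᵐ[volume] fun x => (E (t * x j) - 1) * g x := by
  rw [df, P_toLp]
  refine (Lp.coeFn_sub _ _).trans ?_
  filter_upwards [(sh_memLp (t • qv j) hg).coeFn_toLp, hg.coeFn_toLp] with x h1 h2
  rw [Pi.sub_apply, h1, h2]
  simp only [sh, qv, Prod.smul_mk, smul_zero, sub_zero, smul_dotProduct, single_dotProduct,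
    one_mul, smul_eq_mul]
  ring

/-- Modulations are differentiable at a vector with a finite second moment. -/
lemma mod_tendsto {g : X d → ℂ} (hg : MemLp g 2 volume) (j : Fin d)
    (hv : MemLp (fun x : X d => 2 * Real.pi * Complex.I * x j * g x) 2 volume) :
    Tendsto (fun t : ℝ => ((t⁻¹ : ℝ) : ℂ) • df P (t • qv j) (hg.toLp g)) (𝓝[≠] 0)
      (𝓝 (hv.toLp _)) := by
  rw [tendsto_iff_norm_sub_tendsto_zero]
  have hsq : ∀ t : ℝ, ‖((t⁻¹ : ℝ) : ℂ) • df P (t • qv j) (hg.toLp g) - hv.toLp _‖ ^ 2 =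
      ∫ x : X d, ‖((t⁻¹ : ℝ) : ℂ) * ((E (t * x j) - 1) * g x) -
        2 * Real.pi * Complex.I * x j * g x‖ ^ 2 := by
    intro t
    have h1 := norm_toLp_sq (Lp.memLp (((t⁻¹ : ℝ) : ℂ) • df P (t • qv j) (hg.toLp g) - hv.toLp _))
    rw [Lp.toLp_coeFn] at h1
    rw [h1]
    refine integral_congr_ae ?_
    filter_upwards [Lp.coeFn_sub (((t⁻¹ : ℝ) : ℂ) • df P (t • qv j) (hg.toLp g)) (hv.toLp _),
      Lp.coeFn_smul ((t⁻¹ : ℝ) : ℂ) (df P (t • qv j) (hg.toLp g)), df_q hg j t,
      hv.coeFn_toLp] with x h2 h3 h4 h5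
    rw [h2, Pi.sub_apply, h3, Pi.smul_apply, h4, h5, smul_eq_mul]
  have hlim : Tendsto (fun t : ℝ => ∫ x : X d, ‖((t⁻¹ : ℝ) : ℂ) * ((E (t * x j) - 1) * g x) -
        2 * Real.pi * Complex.I * x j * g x‖ ^ 2) (𝓝[≠] 0) (𝓝 (∫ _x : X d, (0:ℝ))) := by
    refine tendsto_integral_filter_of_dominated_convergence
      (fun x => 4 * ‖2 * Real.pi * Complex.I * x j * g x‖ ^ 2) ?_ ?_ ?_ ?_
    · refine Eventually.of_forall fun t => ?_
      have h1 : AEStronglyMeasurable (fun x : X d => E (t * x j)) volume :=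
        (continuous_E.comp (by fun_prop)).aestronglyMeasurable
      have h2 := hg.1
      have h3 := hv.1
      exact ((((h1.sub aestronglyMeasurable_const).mul h2).const_mul _).sub h3).norm.pow 2
    · filter_upwards [self_mem_nhdsWithin] with t ht
      refine Eventually.of_forall fun x => ?_
      rw [Real.norm_of_nonneg (by positivity)]
      have ht' : 0 < |t| := abs_pos.2 ht
      have h1 : ‖((t⁻¹ : ℝ) : ℂ) * ((E (t * x j) - 1) * g x)‖ ≤
          ‖2 * Real.pi * Complex.I * x j * g x‖ := by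
        rw [norm_mul, norm_mul, norm_mul, norm_mul, norm_mul, norm_mul, Complex.norm_I,
          Complex.norm_real, Complex.norm_real, Complex.norm_real, Complex.norm_two, norm_inv,
          Real.norm_eq_abs, Real.norm_eq_abs, Real.norm_eq_abs, abs_of_pos Real.pi_pos]
        have h2 := norm_E_sub_one_le (t * x j)
        rw [abs_mul] at h2
        calc |t|⁻¹ * (‖E (t * x j) - 1‖ * ‖g x‖) ≤
              |t|⁻¹ * ((2 * Real.pi * (|t| * |x j|)) * ‖g x‖) := by gcongr
          _ = 2 * Real.pi * 1 * |x j| * ‖g x‖ := by field_simp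
      have h2 : ‖((t⁻¹ : ℝ) : ℂ) * ((E (t * x j) - 1) * g x) -
        2 * Real.pi * Complex.I * x j * g x‖ ≤ 2 * ‖2 * Real.pi * Complex.I * x j * g x‖ := by
        refine (norm_sub_le _ _).trans ?_
        linarith
      calc _ ≤ (2 * ‖2 * Real.pi * Complex.I * x j * g x‖) ^ 2 := by gcongr
        _ = _ := by ring
    · exact ((memLp_two_iff_integrable_sq_norm hv.1).1 hv).const_mul 4
    · refine Eventually.of_forall fun x => ?_
      have h1 : HasDerivAt (fun t : ℝ => E (t * x j)) (2 * Real.pi * Complex.I * x j) 0 := by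
        have h3 : HasDerivAt (fun s : ℝ => ((2 * Real.pi * (s * x j) : ℝ) : ℂ) * Complex.I)
            (2 * Real.pi * Complex.I * x j) 0 := by
          have h4 : HasDerivAt (fun s : ℝ => (s : ℂ)) 1 0 := Complex.ofRealCLM.hasDerivAt
          have h5 := (h4.const_mul (2 * Real.pi * Complex.I * x j))
          refine (h5.congr_of_eventuallyEq (Eventually.of_forall fun s => ?_)).congr_deriv
            (by ring)
          push_cast
          ring
        have h6 := h3.cexp
        simpa [E] using h6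
      have h2 := h1.tendsto_slope
      have h3 : Tendsto (fun t : ℝ => ((t⁻¹ : ℝ) : ℂ) * ((E (t * x j) - 1) * g x) -
          2 * Real.pi * Complex.I * x j * g x) (𝓝[≠] 0) (𝓝 0) := by
        have h4 := (h2.mul_const (g x)).sub_const (2 * Real.pi * Complex.I * x j * g x)
        rw [sub_self] at h4
        refine h4.congr fun t => ?_
        simp only [slope, sub_zero, vsub_eq_sub, zero_mul, E_zero, Complex.real_smul]
        ring
      have h4 := (h3.norm).pow 2
      simpa using h4
  rw [integral_zero] at hlim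
  have h1 : Tendsto (fun t : ℝ =>
      ‖((t⁻¹ : ℝ) : ℂ) • df P (t • qv j) (hg.toLp g) - hv.toLp _‖ ^ 2) (𝓝[≠] 0) (𝓝 0) := by
    simp only [hsq]
    exact hlim
  have h2 := h1.sqrt
  simpa [Real.sqrt_sq (norm_nonneg _)] using h2

/-- The pairing of a translated test function with `g`. -/
lemma pair_hasDerivAt {g : X d → ℂ} (hg : MemLp g 2 volume) (j : Fin d) {ψ : X d → ℂ}
    (hψ : ContDiff ℝ ∞ ψ) (hc : HasCompactSupport ψ) (t₀ : ℝ) :
    HasDerivAt (fun t : ℝ => ∫ x, ψ (x + t • Pi.single j 1) * g x)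
      (∫ x, fderiv ℝ ψ (x + t₀ • Pi.single j 1) (Pi.single j 1) * g x) t₀ := by
  set ej : X d := Pi.single j 1 with hej
  -- compact set
  set T : Set (X d) := (fun y : ℝ × X d => y.2 - y.1 • ej) ''
    (Set.Icc (t₀ - 1) (t₀ + 1) ×ˢ tsupport ψ) with hT
  have hTc : IsCompact T := (isCompact_Icc.prod hc).image (by fun_prop)
  have hmem : ∀ x : X d, ∀ t ∈ Set.Icc (t₀ - 1) (t₀ + 1), x ∉ T → x + t • ej ∉ tsupport ψ := by
    intro x t ht hx hs
    exact hx ⟨(t, x + t • ej), ⟨ht, hs⟩, by simp⟩
  have hdc : Continuous fun x => fderiv ℝ ψ x ej := by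
    have : Continuous (fderiv ℝ ψ) := hψ.continuous_fderiv (by simp)
    exact this.clm_apply continuous_const
  have hdcs : HasCompactSupport fun x => fderiv ℝ ψ x ej := (hc.fderiv_apply (𝕜 := ℝ) ej)
  obtain ⟨C, hC⟩ := hdcs.exists_bound_of_continuous hdc
  have hgl : IntegrableOn g T volume :=
    (hg.locallyIntegrable (by norm_num)).integrableOn_isCompact hTc
  have hmeasT : MeasurableSet T := hTc.measurableSet
  have hmeas : ∀ t : ℝ, AEStronglyMeasurable (fun x => ψ (x + t • ej) * g x) volume := by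
    intro t
    exact ((hψ.continuous.comp (by fun_prop)).aestronglyMeasurable).mul hg.1
  obtain ⟨C', hC'⟩ := hc.exists_bound_of_continuous hψ.continuous
  refine (hasDerivAt_integral_of_dominated_loc_of_deriv_le (μ := volume)
    (F := fun (t : ℝ) x => ψ (x + t • ej) * g x)
    (F' := fun (t : ℝ) x => fderiv ℝ ψ (x + t • ej) ej * g x)
    (x₀ := t₀) (s := Metric.ball t₀ 1)
    (bound := T.indicator fun x => C * ‖g x‖) (Metric.ball_mem_nhds _ one_pos)
    (Eventually.of_forall hmeas) ?_ ?_ ?_ ?_ ?_).2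
  · -- integrability
    have h1 : Integrable (T.indicator fun x => C' * ‖g x‖) volume := by
      rw [integrable_indicator_iff hmeasT]
      exact hgl.norm.const_mul C'
    refine h1.mono' (hmeas t₀) (Eventually.of_forall fun x => ?_)
    by_cases hx : x ∈ T
    · rw [Set.indicator_of_mem hx, norm_mul]
      gcongr
      exact hC' _
    · rw [Set.indicator_of_notMem hx]
      have := hmem x t₀ ⟨by linarith, by linarith⟩ hx
      rw [image_eq_zero_of_notMem_tsupport this]
      simp
  · exact ((hdc.comp (by fun_prop)).aestronglyMeasurable).mul hg.1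
  · refine Eventually.of_forall fun x t ht => ?_
    have ht' : t ∈ Set.Icc (t₀ - 1) (t₀ + 1) := by
      rw [Metric.mem_ball, Real.dist_eq, abs_lt] at ht
      exact ⟨by linarith, by linarith⟩
    by_cases hx : x ∈ T
    · rw [Set.indicator_of_mem hx, norm_mul]
      gcongr
      exact hC _
    · rw [Set.indicator_of_notMem hx]
      have h1 := hmem x t ht' hx
      have h2 : fderiv ℝ ψ (x + t • ej) = 0 := by
        by_contra hcon
        exact h1 (support_fderiv_subset ℝ (Function.mem_support.2 hcon))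
      rw [h2]
      simp
  · rw [integrable_indicator_iff hmeasT]
    exact hgl.norm.const_mul C
  · refine Eventually.of_forall fun x t _ => ?_
    have h1 : HasFDerivAt ψ (fderiv ℝ ψ (x + t • ej)) (x + t • ej) :=
      (hψ.differentiable (by simp)).differentiableAt.hasFDerivAt
    have h2 : HasDerivAt (fun t : ℝ => x + t • ej) ej t := by
      have := ((hasDerivAt_id t).smul_const ej).const_add x
      simpa using this
    exact (h1.comp_hasDerivAt t h2).mul_const (g x)

/-- Translations are Lipschitz at a vector with a square integrable weak derivative. -/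
lemma trans_lip {g h : X d → ℂ} (hg : MemLp g 2 volume) (hh : MemLp h 2 volume) (j : Fin d)
    (hw : ∀ φ : X d → ℂ, ContDiff ℝ ∞ φ → HasCompactSupport φ →
      ∫ x, g x * fderiv ℝ φ x (Pi.single j (1:ℝ)) = - ∫ x, h x * φ x) (t : ℝ) :
    ‖df P (t • pv j) (hg.toLp g)‖ ≤ ‖hh.toLp h‖ * |t| := by
  set ej : X d := Pi.single j 1 with hej
  set D : HH d := df P (t • pv j) (hg.toLp g) with hD
  have key : ∀ f : HH d, ‖inner ℂ f D‖ ≤ ‖hh.toLp h‖ * |t| * ‖f‖ := by
    intro f
    have hcl : IsClosed {f : HH d | ‖inner ℂ f D‖ ≤ ‖hh.toLp h‖ * |t| * ‖f‖} :=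
      isClosed_le (by fun_prop) (by fun_prop)
    refine hcl.closure_subset_iff.2 ?_
      (MeasureTheory.Lp.dense_hasCompactSupport_contDiff (F := ℂ) (μ := volume)
        (E := X d) (p := 2) (by norm_num) f)
    rintro f ⟨φ, hφ1, hφ2, hφ3⟩
    have hφm : MemLp φ 2 volume := hφ3.continuous.memLp_of_hasCompactSupport hφ2
    have hfφ : f = hφm.toLp φ := by
      apply Lp.ext
      exact hφ1.trans hφm.coeFn_toLp.symm
    subst hfφ
    change ‖inner ℂ (hφm.toLp φ) D‖ ≤ ‖hh.toLp h‖ * |t| * ‖hφm.toLp φ‖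
    set ψ : X d → ℂ := fun x => (starRingEnd ℂ) (φ x) with hψdef
    have hψ : ContDiff ℝ ∞ ψ := Complex.conjCLE.contDiff.comp hφ3
    have hψc : HasCompactSupport ψ := hφ2.comp_left (by simp)
    set F : ℝ → ℂ := fun s => ∫ x, ψ (x + s • ej) * g x with hF
    have hFt : ∀ s : ℝ, inner ℂ (hφm.toLp φ) (P (s • pv j) (hg.toLp g)) = F s := by
      intro s
      rw [P_toLp, inner_toLp, hF]
      have h1 := integral_sub_right_eq_self (μ := (volume : Measure (X d)))
        (fun x => ψ (x + s • ej) * g x) (s • ej)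
      change _ = ∫ x, ψ (x + s • ej) * g x
      rw [← h1]
      refine integral_congr_ae (Eventually.of_forall fun x => ?_)
      simp [sh, pv, hψdef, hej]
    have hDF : inner ℂ (hφm.toLp φ) D = F t - F 0 := by
      rw [hD, df, inner_sub_right, hFt t]
      congr 1
      rw [← hFt 0, zero_smul, isRep.zero]
    have hder : ∀ s : ℝ, HasDerivAt F (∫ x, fderiv ℝ ψ (x + s • ej) ej * g x) s :=
      fun s => pair_hasDerivAt hg j hψ hψc s
    have hbd : ∀ s : ℝ, ‖∫ x, fderiv ℝ ψ (x + s • ej) ej * g x‖ ≤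
        ‖hh.toLp h‖ * ‖hφm.toLp φ‖ := by
      intro s
      set ψs : X d → ℂ := fun x => ψ (x + s • ej) with hψs
      have h1 : ContDiff ℝ ∞ ψs := hψ.comp (by fun_prop)
      have h2 : HasCompactSupport ψs := hψc.comp_homeomorph (Homeomorph.addRight (s • ej))
      have h3 := hw ψs h1 h2
      have h4 : ∀ x, fderiv ℝ ψs x = fderiv ℝ ψ (x + s • ej) := by
        intro x
        exact fderiv_comp_add_right (s • ej)
      have h5 : ∫ x, fderiv ℝ ψ (x + s • ej) ej * g x = - ∫ x, h x * ψs x := by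
        rw [← h3]
        refine integral_congr_ae (Eventually.of_forall fun x => ?_)
        simp only [h4]
        ring
      rw [h5, norm_neg]
      have hψsm : MemLp (fun x => (starRingEnd ℂ) (ψs x)) 2 volume := by
        have h6 : MemLp (fun x => φ (x - (-(s • ej)))) 2 volume :=
          hφm.comp_measurePreserving (mp (-(s • ej)))
        refine h6.ae_eq (Eventually.of_forall fun x => ?_)
        simp [hψs, hψdef]
      have h7 : ∫ x, h x * ψs x = inner ℂ (hψsm.toLp _) (hh.toLp h) := by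
        rw [inner_toLp]
        refine integral_congr_ae (Eventually.of_forall fun x => ?_)
        simp only [Complex.conj_conj]
        ring
      rw [h7]
      refine (norm_inner_le_norm _ _).trans ?_
      rw [mul_comm]
      gcongr
      have h8 : ‖hψsm.toLp _‖ = ‖hφm.toLp φ‖ := by
        rw [Lp.norm_toLp, Lp.norm_toLp]
        congr 1
        rw [← eLpNorm_comp_measurePreserving hφm.1 (mp (-(s • ej)))]
        refine eLpNorm_congr_norm_ae (Eventually.of_forall fun x => ?_)
        simp [hψs, hψdef]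
      exact h8.le
    have hmv := Convex.norm_image_sub_le_of_norm_hasDerivWithin_le (f := F)
      (f' := fun s => ∫ x, fderiv ℝ ψ (x + s • ej) ej * g x) (s := Set.univ)
      (x := 0) (y := t) (fun s _ => (hder s).hasDerivWithinAt) (fun s _ => hbd s) convex_univ
      (Set.mem_univ _) (Set.mem_univ _)
    rw [hDF]
    refine hmv.trans ?_
    rw [sub_zero, Real.norm_eq_abs]
    apply le_of_eq
    ring
  have h1 := key D
  rw [inner_self_eq_norm_sq_to_K] at h1
  have h2 : ‖D‖ ^ 2 ≤ ‖hh.toLp h‖ * |t| * ‖D‖ := by simpa using h1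
  rcases (norm_nonneg D).lt_or_eq with h3 | h3
  · have : ‖D‖ * ‖D‖ ≤ ‖hh.toLp h‖ * |t| * ‖D‖ := by rw [← sq]; exact h2
    exact le_of_mul_le_mul_right this h3
  · rw [← h3]; positivity

end Pool.Agent.Q179.BLT
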